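import Pool.Agent.P8H8.EV.Stm

/-! Packages EXPD and POLY of the project EV. -/

set_option autoImplicit false

open MeasureTheory Set Filter Metric
open scoped Topology ContDiff ComplexConjugate

namespace Pool.Agent.P8H71.EV

open Pool.Agent.P8H8.SV Pool.Agent.P8H8.EV

variable {φ : ℂ → ℂ} {r : ℝ}

theorem IN_ne (h : Dom φ r) (t : ℝ) : Complex.I * N φ t ≠ 0 :=
  mul_ne_zero Complex.I_ne_zero (norm_pos_iff.1 (h.N_pos t))

theorem smooth_deriv {f : ℝ → ℂ} (hf : ContDiff ℝ ∞ f) : ContDiff ℝ ∞ (deriv f) :=
  (contDiff_infty_iff_deriv.1 hf).2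

theorem smooth_quot (h : Dom φ r) : ContDiff ℝ ∞ (fun t => conj (N φ t) / N φ t) := by
  have h1 : ContDiff ℝ ∞ (fun t => conj (N φ t)) := Complex.conjCLE.contDiff.comp h.contDiff_N
  have h2 := h1.mul (h.contDiff_N.inv fun t => norm_pos_iff.1 (h.N_pos t))
  simp only [div_eq_mul_inv]
  exact h2

theorem smooth_dd (h : Dom φ r) {f : ℝ → ℂ} (hf : ContDiff ℝ ∞ f) :
    ContDiff ℝ ∞ (fun t => deriv f t / (Complex.I * N φ t)) := by
  have h1 : ContDiff ℝ ∞ (fun t => Complex.I * N φ t) := contDiff_const.mul h.contDiff_N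
  have h2 := (smooth_deriv hf).mul (h1.inv (IN_ne h))
  simp only [div_eq_mul_inv]
  exact h2

theorem cont_ip (h : Dom φ r) (a : ℂ) (b : ℝ) :
    Continuous fun t => ip (kf a b (γ φ t)) (N φ t) := by
  have h1 : Continuous (γ φ) := h.contDiff_γ.continuous
  have h2 : Continuous (N φ) := h.contDiff_N.continuous
  have h3 : Continuous fun t => a + (b : ℂ) * Complex.I * γ φ t :=
    continuous_const.add (continuous_const.mul h1)
  exact Complex.continuous_re.comp (h3.mul (Complex.continuous_conj.comp h2))

theorem C_smooth (h : Dom φ r) : ∀ n k : ℕ, ContDiff ℝ ∞ (C φ n k)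
  | 0, 0 => contDiff_const
  | 0, _ + 1 => contDiff_const
  | 1, _ => contDiff_const
  | n + 2, 0 => smooth_dd h (C_smooth h (n + 1) 0)
  | n + 2, k + 1 => by
    have h1 := smooth_dd h (C_smooth h (n + 1) (k + 1))
    have h2 : ContDiff ℝ ∞ (fun t => 1 / 4 * (conj (N φ t) / N φ t) * C φ n k t) :=
      (contDiff_const.mul (smooth_quot h)).mul (C_smooth h n k)
    exact h1.sub h2

theorem C_zero : ∀ n k : ℕ, n < 2 * k → C φ n k = fun _ => 0
  | 0, 0 => fun h => absurd h (by omega)
  | 0, _ + 1 => fun _ => rfl
  | 1, _ => fun _ => rfl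
  | n + 2, 0 => fun h => absurd h (by omega)
  | n + 2, k + 1 => fun h => by
    have h1 := C_zero (n + 1) (k + 1) (by omega)
    have h2 := C_zero n k (by omega)
    show (fun t => deriv (C φ (n + 1) (k + 1)) t / (Complex.I * N φ t) -
      1 / 4 * (conj (N φ t) / N φ t) * C φ n k t) = fun _ => 0
    rw [h1, h2]
    funext t
    simp

theorem C_low : ∀ n : ℕ, C φ (n + 1) 0 = fun _ => 0
  | 0 => rfl
  | n + 1 => by
    show (fun t => deriv (C φ (n + 1) 0) t / (Complex.I * N φ t)) = fun _ => 0
    rw [C_low n]
    funext t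
    simp

theorem C_top : ∀ j : ℕ, ∀ t, C φ (2 * j) j t = (-(conj (N φ t) / N φ t) / 4) ^ j
  | 0, t => by rw [pow_zero]; rfl
  | j + 1, t => by
    have h1 := C_zero (φ := φ) (2 * j + 1) (j + 1) (by omega)
    have h2 := C_top j t
    show deriv (C φ (2 * j + 1) (j + 1)) t / (Complex.I * N φ t) -
      1 / 4 * (conj (N φ t) / N φ t) * C φ (2 * j) j t = _
    rw [h1, h2]
    simp only [deriv_const, zero_div, zero_sub]
    rw [pow_succ]
    ring

theorem U_expand (h : Dom φ r) (lam : ℝ) : ∀ n : ℕ, ∀ t,
    U φ lam n t = ∑ k ∈ Finset.range (n + 1), (lam : ℂ) ^ k * C φ n k t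
  | 0, t => by
    rw [Finset.sum_range_one, pow_zero, one_mul]
    rfl
  | 1, t => by
    have h1 : ∀ k, C φ 1 k t = 0 := fun k => rfl
    simp only [h1, mul_zero, Finset.sum_const_zero]
    rfl
  | n + 2, t => by
    have h1 : U φ lam (n + 1) = fun t => ∑ k ∈ Finset.range (n + 2), (lam : ℂ) ^ k *
      C φ (n + 1) k t := funext (U_expand h lam (n + 1))
    have h2 := U_expand h lam n t
    have hd : deriv (U φ lam (n + 1)) t = ∑ k ∈ Finset.range (n + 2), (lam : ℂ) ^ k *
        deriv (C φ (n + 1) k) t := by
      rw [h1]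
      rw [deriv_fun_sum]
      · refine Finset.sum_congr rfl fun k _ => ?_
        rw [deriv_const_mul]
        exact ((C_smooth h (n + 1) k).differentiable (by simp)) t
      · intro k _
        exact (((C_smooth h (n + 1) k).differentiable (by simp)) t).const_mul _
    have e0 : C φ (n + 1) (n + 2) = fun _ => 0 := C_zero _ _ (by omega)
    have e1 : C φ n (n + 1) t = 0 := by rw [C_zero _ _ (by omega)]
    have hd' : deriv (U φ lam (n + 1)) t = ∑ k ∈ Finset.range (n + 3), (lam : ℂ) ^ k *
        deriv (C φ (n + 1) k) t := by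
      rw [hd, Finset.sum_range_succ _ (n + 2), e0]
      simp
    have h2' : U φ lam n t = ∑ k ∈ Finset.range (n + 2), (lam : ℂ) ^ k * C φ n k t := by
      rw [h2, Finset.sum_range_succ _ (n + 1), e1]
      simp
    show deriv (U φ lam (n + 1)) t / (Complex.I * N φ t) -
      lam / 4 * (conj (N φ t) / N φ t) * U φ lam n t = _
    rw [hd', h2', Finset.sum_range_succ' _ (n + 2), Finset.sum_range_succ' _ (n + 2)]
    have e2 : C φ (n + 2) 0 t = deriv (C φ (n + 1) 0) t / (Complex.I * N φ t) := rfl
    have e3 : ∀ k, C φ (n + 2) (k + 1) t = deriv (C φ (n + 1) (k + 1)) t / (Complex.I * N φ t) -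
      1 / 4 * (conj (N φ t) / N φ t) * C φ n k t := fun k => rfl
    simp only [e2, e3]
    rw [add_div, Finset.sum_div, Finset.mul_sum, pow_zero, one_mul, one_mul, add_sub_right_comm,
      ← Finset.sum_sub_distrib]
    congr 1
    refine Finset.sum_congr rfl fun k _ => ?_
    rw [pow_succ]
    ring

theorem t_EXPD : S_EXPD := by
  intro φ r h
  refine ⟨C_smooth h, fun n k t hn => by rw [C_zero n k hn], ?_, fun lam n t =>
    U_expand h lam n t, fun j t => C_top j t⟩
  intro n t hn
  obtain ⟨m, rfl⟩ : ∃ m, n = m + 1 := ⟨n - 1, by omega⟩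
  rw [C_low m]

/-- the divergence theorem -/
theorem div_thm (h : Dom φ r) (a : ℂ) (b : ℝ) :
    ∫ t in (0 : ℝ)..2 * Real.pi, (ip (kf a b (γ φ t)) (N φ t) : ℂ) = 0 := by
  -- primitive
  set F : ℝ → ℝ := fun t => (a * conj (-Complex.I * γ φ t)).re - b / 2 * ‖γ φ t‖ ^ 2 with hF
  have hder : ∀ t, HasDerivAt F (ip (kf a b (γ φ t)) (N φ t)) t := by
    intro t
    have h1 := h.hasDerivAt_γ t
    have h2 : HasDerivAt (fun t => a * conj (-Complex.I * γ φ t))
        (a * conj (-Complex.I * (Complex.I * N φ t))) t := by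
      have h3 := (h1.const_mul (-Complex.I)).star
      exact h3.const_mul a
    have h4 : HasDerivAt (fun t => (a * conj (-Complex.I * γ φ t)).re)
        (a * conj (-Complex.I * (Complex.I * N φ t))).re t := by
      have := (Complex.reCLM.hasFDerivAt (x := a * conj (-Complex.I * γ φ t))).comp_hasDerivAt t h2
      exact this
    have h5 : HasDerivAt (fun t => ‖γ φ t‖ ^ 2)
        (2 * (γ φ t * conj (Complex.I * N φ t)).re) t := by
      have h6 : (fun t => ‖γ φ t‖ ^ 2) = fun t => (γ φ t * conj (γ φ t)).re := by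
        funext t
        rw [Complex.mul_conj, Complex.ofReal_re, Complex.normSq_eq_norm_sq]
      rw [h6]
      have h7 := (Complex.reCLM.hasFDerivAt (x := γ φ t * conj (γ φ t))).comp_hasDerivAt t
        (h1.mul h1.star)
      refine h7.congr_deriv ?_
      simp only [Complex.reCLM_apply, RCLike.star_def]
      simp only [Complex.mul_re, Complex.add_re, Complex.conj_re, Complex.conj_im, Complex.mul_im,
        Complex.I_re, Complex.I_im]
      ring
    have h8 := h4.sub (h5.const_mul (b / 2))
    refine h8.congr_deriv ?_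
    unfold ip kf
    simp only [map_mul, map_neg, Complex.conj_I, Complex.mul_re, Complex.add_re, Complex.conj_re,
      Complex.conj_im, Complex.mul_im, Complex.I_re, Complex.I_im, Complex.neg_re, Complex.neg_im,
      Complex.add_im, Complex.ofReal_re, Complex.ofReal_im]
    ring
  have hcont : Continuous fun t => ip (kf a b (γ φ t)) (N φ t) := cont_ip h a b
  have hint := intervalIntegral.integral_eq_sub_of_hasDerivAt (a := 0) (b := 2 * Real.pi)
    (fun t _ => hder t) (hcont.intervalIntegrable _ _)
  rw [intervalIntegral.integral_ofReal, hint]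
  have hper : F (2 * Real.pi) = F 0 := by
    have := γ_per (φ := φ) 0
    rw [zero_add] at this
    simp only [hF]
    rw [this]
  rw [hper, sub_self, Complex.ofReal_zero]

theorem t_POLY : S_POLY := by
  intro φ r Λ h hpos hΛ n k a b hn
  obtain ⟨hsm, hz, hlow, hexp, -⟩ := t_EXPD φ r h
  rcases Nat.eq_zero_or_pos n with rfl | hn1
  · rcases Nat.eq_zero_or_pos k with rfl | hk
    · have h1 := div_thm h a b
      have h2 : ∀ t, C φ 0 0 t = 1 := fun t => rfl
      simp only [h2, one_mul]
      exact h1
    · have h2 : ∀ t, C φ 0 k t = 0 := fun t => hz 0 k t (by omega)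
      simp only [h2, zero_mul, intervalIntegral.integral_zero]
  · set J : ℕ → ℂ := fun k => ∫ t in (0 : ℝ)..2 * Real.pi, C φ n k t *
      (ip (kf a b (γ φ t)) (N φ t) : ℂ) with hJ
    show J k = 0
    have hip : Continuous fun t => (ip (kf a b (γ φ t)) (N φ t) : ℂ) :=
      Complex.continuous_ofReal.comp (cont_ip h a b)
    have hJz : ∀ k, n < 2 * k → J k = 0 := by
      intro k hk
      simp only [hJ]
      have h2 : ∀ t, C φ n k t = 0 := fun t => hz n k t hk
      simp only [h2, zero_mul, intervalIntegral.integral_zero]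
    have hJ0 : J 0 = 0 := by
      simp only [hJ]
      have h2 : ∀ t, C φ n 0 t = 0 := fun t => hlow n t hn1
      simp only [h2, zero_mul, intervalIntegral.integral_zero]
    -- the polynomial
    set P : Polynomial ℂ := ∑ k ∈ Finset.range (n + 1), Polynomial.C (J k) * Polynomial.X ^ k with hP
    have hcoef : ∀ k, P.coeff k = J k := by
      intro k
      rw [hP, Polynomial.finsetSum_coeff]
      simp only [Polynomial.coeff_C_mul, Polynomial.coeff_X_pow]
      by_cases hk : k < n + 1
      · rw [Finset.sum_eq_single k]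
        · simp
        · intro j _ hj
          rw [if_neg (Ne.symm hj), mul_zero]
        · intro hk'
          exact absurd (Finset.mem_range.2 hk) hk'
      · rw [hJz k (by omega)]
        refine Finset.sum_eq_zero fun j hj => ?_
        rw [if_neg, mul_zero]
        have := Finset.mem_range.1 hj
        omega
    have heval : ∀ lam ∈ Λ, P.eval ((lam : ℝ) : ℂ) = 0 := by
      intro lam hlam
      have h1 := hΛ lam hlam n a b
      have h2 : ∀ t, U φ lam n t * (ip (kf a b (γ φ t)) (N φ t) : ℂ) =
          ∑ k ∈ Finset.range (n + 1), (lam : ℂ) ^ k * (C φ n k t *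
            (ip (kf a b (γ φ t)) (N φ t) : ℂ)) := by
        intro t
        rw [hexp lam n t, Finset.sum_mul]
        refine Finset.sum_congr rfl fun k _ => ?_
        ring
      simp only [h2] at h1
      rw [intervalIntegral.integral_finsetSum] at h1
      · rw [hP, Polynomial.eval_finsetSum]
        rw [← h1]
        refine Finset.sum_congr rfl fun k _ => ?_
        rw [intervalIntegral.integral_const_mul]
        simp only [Polynomial.eval_mul, Polynomial.eval_C, Polynomial.eval_pow, Polynomial.eval_X]
        rw [mul_comm]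
      · intro k _
        refine Continuous.intervalIntegrable ?_ _ _
        exact continuous_const.mul (((hsm n k).continuous).mul hip)
    have heval0 : P.eval 0 = 0 := by
      rw [← Polynomial.coeff_zero_eq_eval_zero, hcoef, hJ0]
    have hP0 : P = 0 := by
      by_contra hne
      classical
      set R : Finset ℂ := insert 0 (Λ.image fun x : ℝ => (x : ℂ)) with hR
      have hcard : R.card = Λ.card + 1 := by
        rw [hR, Finset.card_insert_of_notMem, Finset.card_image_of_injective]
        · exact Complex.ofReal_injective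
        · intro hmem
          obtain ⟨x, hx, hx0⟩ := Finset.mem_image.1 hmem
          have := hpos x hx
          have hx1 : x = 0 := by exact_mod_cast hx0
          linarith
      have hsub : R.val ⊆ P.roots := by
        intro x hx
        have hx' : x ∈ R := hx
        rw [hR, Finset.mem_insert, Finset.mem_image] at hx'
        rw [Polynomial.mem_roots hne, Polynomial.IsRoot.def]
        rcases hx' with rfl | ⟨y, hy, rfl⟩
        · exact heval0
        · exact heval y hy
      have h1 := Polynomial.card_le_degree_of_subset_roots hsub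
      rw [hcard] at h1
      have h2 : P.natDegree ≤ n / 2 := by
        rw [Polynomial.natDegree_le_iff_coeff_eq_zero]
        intro j hj
        rw [hcoef]
        exact hJz j (by omega)
      omega
    rw [← hcoef, hP0, Polynomial.coeff_zero]

end Pool.Agent.P8H71.EV
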