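import Pool.Agent.P8H8.EV.Stm

/-! Package REC of the project EV. -/

set_option autoImplicit false

open MeasureTheory Set Filter Metric
open scoped Topology ContDiff ComplexConjugate

namespace Pool.Agent.P8H71.EV

open Pool.Agent.P8H8.SV Pool.Agent.P8H8.EV
open Pool.Agent.TH298.Sch (SC dd Lr)
open Pool.Agent.R227.SA (la Dat)

variable {φ : ℂ → ℂ} {r : ℝ}

theorem smooth_wd (h : Dom φ r) : ContDiffOn ℝ ∞ (fun w : ℂ => w * deriv φ w) (ball 0 r \ {0}) := by
  have h1 : ContDiffOn ℂ ∞ (deriv φ) (ball 0 r) :=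
    (h.hol.deriv isOpen_ball).contDiffOn isOpen_ball
  exact contDiffOn_id.mul ((h1.restrict_scalars ℝ).mono sdiff_subset)

theorem wd_ne (h : Dom φ r) : ∀ w ∈ ball (0 : ℂ) r \ {0}, w * deriv φ w ≠ 0 := by
  rintro w ⟨hw, hw0⟩
  exact mul_ne_zero hw0 (h.deriv_ne hw)

theorem smooth_G1 (h : Dom φ r) :
    ContDiffOn ℝ ∞ (fun w : ℂ => 1 / (Complex.I * (w * deriv φ w))) (ball 0 r \ {0}) := by
  have h1 : ContDiffOn ℝ ∞ (fun w : ℂ => Complex.I * (w * deriv φ w)) (ball 0 r \ {0}) :=
    contDiffOn_const.mul (smooth_wd h)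
  have h2 := h1.inv fun w hw => mul_ne_zero Complex.I_ne_zero (wd_ne h w hw)
  simp only [one_div]
  exact h2

theorem smooth_G2 (h : Dom φ r) :
    ContDiffOn ℝ ∞ (fun w : ℂ => conj (w * deriv φ w) / (w * deriv φ w)) (ball 0 r \ {0}) := by
  have h1 : ContDiffOn ℝ ∞ (fun w : ℂ => conj (w * deriv φ w)) (ball 0 r \ {0}) :=
    Complex.conjCLE.contDiff.comp_contDiffOn (smooth_wd h)
  have h2 := h1.mul ((smooth_wd h).inv (wd_ne h))
  simp only [div_eq_mul_inv]
  exact h2

theorem t_REC (hCHAIN : S_CHAIN) (hWPDE : S_WPDE) (hBAS : S_BAS) (hBVA : S_BVA)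
    (hCOEF : S_COEF) : S_REC := by
  intro φ r lam c v h hD
  obtain ⟨hcongr, hadd, hmul, hDy, hconst⟩ := hBVA
  have hB := hBAS φ r lam c v h hD
  have hopen : IsOpen (φ '' ball 0 1) := by
    have h1 : DifferentiableOn ℂ φ (ball 0 1) := h.hol.mono (ball_subset_ball h.hr.le)
    have h2 : InjOn φ (ball 0 1) := h.inj.mono (ball_subset_ball h.hr.le)
    have h3 : AnalyticOnNhd ℂ φ (ball 0 1) := h1.analyticOnNhd isOpen_ball
    rcases h3.is_constant_or_isOpen (convex_ball _ _).isPreconnected with ⟨w, hw⟩ | h4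
    · exfalso
      have e0 := hw 0 (mem_ball_self one_pos)
      have e1 := hw (1 / 2) (by rw [mem_ball_zero_iff]; norm_num)
      have := h2 (mem_ball_self one_pos) (by rw [mem_ball_zero_iff]; norm_num) (e0.trans e1.symm)
      norm_num at this
    · exact h4 _ Subset.rfl isOpen_ball
  have hW := hWPDE (φ '' ball 0 1) lam c v hopen hD
  have hG1 := hCOEF r _ h.hr (smooth_G1 h)
  have hG2 := hCOEF r _ h.hr (smooth_G2 h)
  have hmemζ : ∀ ζ : ℂ, ζ.re < 0 → φ (Complex.exp ζ) ∈ φ '' ball 0 1 := by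
    intro ζ hζ
    refine ⟨Complex.exp ζ, ?_, rfl⟩
    rw [mem_ball_zero_iff, Complex.norm_exp]
    exact (by rw [← Real.exp_zero]; exact Real.exp_lt_exp.2 hζ : Real.exp ζ.re < 1)
  have key : ∀ n : ℕ, BV (fun ζ => W c v n (φ (Complex.exp ζ))) (fun t => c * U φ lam n t) ∧
      BV (fun ζ => W c v (n + 1) (φ (Complex.exp ζ))) (fun t => c * U φ lam (n + 1) t) := by
    intro n
    induction n with
    | zero =>
      refine ⟨?_, ?_⟩
      · have e : (fun t => (c : ℂ) * U φ lam 0 t) = fun _ => (c : ℂ) := by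
          funext t
          show (c : ℂ) * 1 = c
          rw [mul_one]
        rw [e]
        exact hB.1
      · have e : (fun t => (c : ℂ) * U φ lam (0 + 1) t) = fun _ => 0 := by
          funext t
          show (c : ℂ) * 0 = 0
          rw [mul_zero]
        rw [e]
        exact hB.2
    | succ n ih =>
      refine ⟨ih.2, ?_⟩
      -- the product with the coefficients
      have h1 := hmul _ _ _ _ (hDy _ _ ih.2) hG1
      have h2 := hmul _ _ _ _ (hmul _ _ _ _ (hconst (-(lam / 4 : ℂ))) hG2) ih.1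
      have h3 := hadd _ _ _ _ h1 h2
      have h4 := hcongr _ (fun ζ => W c v (n + 1 + 1) (φ (Complex.exp ζ))) _ h3 (by
        intro ζ hζ
        have hc := (hCHAIN φ r (W c v (n + 1)) h (hW (n + 1)).1).2 ζ hζ Complex.I
        have hz : dz (W c v (n + 1)) (φ (Complex.exp ζ)) = W c v (n + 1 + 1) (φ (Complex.exp ζ)) := rfl
        have hzb := (hW n).2.1 (φ (Complex.exp ζ)) (hmemζ ζ hζ)
        have hdF : dF φ ζ = Complex.exp ζ * deriv φ (Complex.exp ζ) := rfl
        have hne : dF φ ζ ≠ 0 := by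
          rw [hdF]
          refine mul_ne_zero (Complex.exp_ne_zero _) (h.deriv_ne ?_)
          rw [mem_ball_zero_iff, Complex.norm_exp]
          exact ((by rw [← Real.exp_zero]; exact Real.exp_lt_exp.2 hζ : Real.exp ζ.re < 1)).trans h.hr
        show W c v (n + 1 + 1) (φ (Complex.exp ζ)) =
          Dy (fun ζ => W c v (n + 1) (φ (Complex.exp ζ))) ζ *
            (1 / (Complex.I * (Complex.exp ζ * deriv φ (Complex.exp ζ)))) +
          -(lam / 4 : ℂ) * (conj (Complex.exp ζ * deriv φ (Complex.exp ζ)) /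
            (Complex.exp ζ * deriv φ (Complex.exp ζ))) * W c v n (φ (Complex.exp ζ))
        have hDyv : Dy (fun ζ => W c v (n + 1) (φ (Complex.exp ζ))) ζ =
            W c v (n + 1 + 1) (φ (Complex.exp ζ)) * (dF φ ζ * Complex.I) +
              (-(lam / 4) * W c v n (φ (Complex.exp ζ))) * (conj (dF φ ζ) * -Complex.I) := by
          rw [← hz, ← hzb, ← Complex.conj_I, ← map_mul]
          exact hc
        rw [hDyv, ← hdF]
        have hI : Complex.I * Complex.I = -1 := Complex.I_mul_I
        field_simp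
        ring_nf)
      have e : (fun t => (c : ℂ) * U φ lam (n + 1 + 1) t) =
          fun y : ℝ => deriv (fun t => (c : ℂ) * U φ lam (n + 1) t) y *
            (1 / (Complex.I * (Complex.exp (y * Complex.I) * deriv φ (Complex.exp (y * Complex.I))))) +
          -(lam / 4 : ℂ) * (conj (Complex.exp (y * Complex.I) * deriv φ (Complex.exp (y * Complex.I))) /
            (Complex.exp (y * Complex.I) * deriv φ (Complex.exp (y * Complex.I)))) *
            ((c : ℂ) * U φ lam n y) := by
        funext t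
        have e1 : deriv (fun t => (c : ℂ) * U φ lam (n + 1) t) t = c * deriv (U φ lam (n + 1)) t :=
          deriv_const_mul_field _
        rw [e1]
        show (c : ℂ) * (deriv (U φ lam (n + 1)) t / (Complex.I * N φ t) -
          lam / 4 * (conj (N φ t) / N φ t) * U φ lam n t) = _
        unfold N
        ring
      rw [e]
      exact h4
  exact fun n => (key n).1

end Pool.Agent.P8H71.EV
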